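import Mathlib

set_option autoImplicit false

/-!
# Automorphisms of powers of `GL_2`
-/

open Matrix

namespace Q5.Tori

variable {K : Type*} [Field K]

/-- A matrix of `GL_2` with equal diagonal entries and zero off-diagonal entries is central. -/
theorem mem_center_of {g : GL (Fin 2) K} (h01 : g.val 0 1 = 0) (h10 : g.val 1 0 = 0)
    (h : g.val 0 0 = g.val 1 1) : g ∈ Subgroup.center (GL (Fin 2) K) := by
  rw [Subgroup.mem_center_iff]
  intro x
  ext i j
  fin_cases i <;> fin_cases j <;>
    simp [mul_apply, Fin.sum_univ_two, h01, h10, h, mul_comm]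

/-- Conjugates of a noncentral element and noncentral elements do not all commute. -/
theorem exists_conj_not_commute [CharZero K] {x y : GL (Fin 2) K}
    (hx : x ∉ Subgroup.center (GL (Fin 2) K)) (hy : y ∉ Subgroup.center (GL (Fin 2) K)) :
    ∃ g : GL (Fin 2) K, ¬ Commute (g * x * g⁻¹) y := by
  by_contra hcon
  push Not at hcon
  -- the quadratic polynomials of `x` and `y`
  let q : GL (Fin 2) K → Polynomial K := fun z =>
    Polynomial.C (z.val 0 1) * Polynomial.X ^ 2 + Polynomial.C (z.val 0 0 - z.val 1 1) * Polynomial.X -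
      Polynomial.C (z.val 1 0)
  have hq : ∀ z, z ∉ Subgroup.center (GL (Fin 2) K) → q z ≠ 0 := by
    intro z hz h0
    apply hz
    have c0 := congrArg (fun p => Polynomial.coeff p 0) h0
    have c1 := congrArg (fun p => Polynomial.coeff p 1) h0
    have c2 := congrArg (fun p => Polynomial.coeff p 2) h0
    simp [q, Polynomial.coeff_X, Polynomial.coeff_C] at c0 c1 c2
    exact mem_center_of c2 c0 (sub_eq_zero.mp c1)
  obtain ⟨s, hs⟩ : ∃ s, (q x * q y).eval s ≠ 0 := by
    by_contra hall
    push Not at hall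
    exact mul_ne_zero (hq x hx) (hq y hy) (Polynomial.funext (by simpa using hall))
  rw [Polynomial.eval_mul] at hs
  have hsx := left_ne_zero_of_mul hs
  have hsy := right_ne_zero_of_mul hs
  simp only [q, Polynomial.eval_sub, Polynomial.eval_add, Polynomial.eval_mul, Polynomial.eval_C,
    Polynomial.eval_pow, Polynomial.eval_X] at hsx hsy
  set N : Matrix (Fin 2) (Fin 2) K := !![-s, 1; -s ^ 2, s] with hN
  have hNN : N * N = 0 := by
    ext i j
    fin_cases i <;> fin_cases j <;> simp [hN, mul_apply, Fin.sum_univ_two] <;> ring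
  have hNz : ∀ z : Matrix (Fin 2) (Fin 2) K,
      N * z * N = (-(z 0 1 * s ^ 2 + (z 0 0 - z 1 1) * s - z 1 0)) • N := by
    intro z
    ext i j
    fin_cases i <;> fin_cases j <;>
      simp [hN, mul_apply, Fin.sum_univ_two, vecMul, dotProduct] <;> ring
  let g : GL (Fin 2) K := ⟨1 + N, 1 - N, by
    have : (1 + N) * (1 - N) = 1 - N * N := by noncomm_ring
    rw [this, hNN, sub_zero], by
    have : (1 - N) * (1 + N) = 1 - N * N := by noncomm_ring
    rw [this, hNN, sub_zero]⟩
  have h1 : x.val * y.val = y.val * x.val := by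
    have := hcon 1
    rw [one_mul, inv_one, mul_one] at this
    exact congrArg Units.val this.eq
  have h2 : (1 + N) * x.val * (1 - N) * y.val = y.val * ((1 + N) * x.val * (1 - N)) :=
    congrArg Units.val (hcon g).eq
  have h3 : (1 - N) * x.val * (1 + N) * y.val = y.val * ((1 - N) * x.val * (1 + N)) := by
    have := hcon g⁻¹
    rw [inv_inv] at this
    exact congrArg Units.val this.eq
  have h4 : (N * x.val * N) * y.val = y.val * (N * x.val * N) := by
    have e : (2 : K) • ((N * x.val * N) * y.val - y.val * (N * x.val * N)) = 0 := by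
      have e1 : (2 : K) • ((N * x.val * N) * y.val - y.val * (N * x.val * N)) =
          (2 : K) • (x.val * y.val - y.val * x.val) -
          (((1 + N) * x.val * (1 - N) * y.val - y.val * ((1 + N) * x.val * (1 - N))) +
          ((1 - N) * x.val * (1 + N) * y.val - y.val * ((1 - N) * x.val * (1 + N)))) := by
        rw [two_smul, two_smul]
        noncomm_ring
      rw [e1, h1, h2, h3]
      simp
    have e2 := (smul_eq_zero.mp e).resolve_left two_ne_zero
    exact sub_eq_zero.mp e2
  rw [hNz, smul_mul_assoc, mul_smul_comm] at h4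
  have h5 : N * y.val = y.val * N := by
    have h6 := smul_right_injective (Matrix (Fin 2) (Fin 2) K) (neg_ne_zero.mpr hsx) h4
    exact h6
  have h7 : N * y.val * N = 0 := by
    rw [h5, mul_assoc, hNN, mul_zero]
  rw [hNz] at h7
  have h8 := (smul_eq_zero.mp h7).resolve_left (neg_ne_zero.mpr hsy)
  have h9 := congrFun (congrFun h8 0) 1
  simp [hN] at h9

/-- There are noncentral elements. -/
theorem exists_not_mem_center : ∃ g : GL (Fin 2) K, g ∉ Subgroup.center (GL (Fin 2) K) := by
  refine ⟨⟨!![1, 1; 0, 1], !![1, -1; 0, 1], by simp [one_fin_two], by simp [one_fin_two]⟩, ?_⟩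
  intro h
  rw [Subgroup.mem_center_iff] at h
  have h1 := congrArg Units.val (h ⟨!![1, 0; 1, 1], !![1, 0; -1, 1], by simp [one_fin_two], by
    simp [one_fin_two]⟩)
  have h2 := congrFun (congrFun h1 0) 0
  simp [mul_apply, Fin.sum_univ_two] at h2

/-! ### The permutation of the factors -/

section Perm

variable {r : ℕ} [CharZero K] (σ : (Fin r → GL (Fin 2) K) ≃* (Fin r → GL (Fin 2) K))

/-- The `k`-th component of the image of the `i`-th factor is not central. -/
def Rel (k i : Fin r) : Prop :=
  ∃ g : GL (Fin 2) K, σ (Pi.mulSingle i g) k ∉ Subgroup.center (GL (Fin 2) K)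

theorem rel_unique {k i j : Fin r} (hi : Rel σ k i) (hj : Rel σ k j) : i = j := by
  by_contra hij
  obtain ⟨g, hg⟩ := hi
  obtain ⟨g', hg'⟩ := hj
  obtain ⟨c, hc⟩ := exists_conj_not_commute hg hg'
  apply hc
  set w := σ.symm (Pi.mulSingle k c) with hw
  have h1 : w * Pi.mulSingle i g * w⁻¹ = Pi.mulSingle i (w i * g * (w i)⁻¹) := by
    funext l
    by_cases hl : l = i
    · subst hl
      simp
    · simp [Pi.mulSingle_eq_of_ne hl]
  have h2 : Commute (w * Pi.mulSingle i g * w⁻¹) (Pi.mulSingle j g') := by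
    rw [h1]
    exact Pi.mulSingle_commute hij _ _
  have h3 : Commute (σ (w * Pi.mulSingle i g * w⁻¹)) (σ (Pi.mulSingle j g')) := h2.map σ
  have h4 := congrFun h3.eq k
  simp only [map_mul, map_inv, Pi.mul_apply, Pi.inv_apply, hw, MulEquiv.apply_symm_apply,
    Pi.mulSingle_eq_same] at h4
  exact h4

theorem exists_rel (k : Fin r) : ∃ i, Rel σ k i := by
  by_contra hcon
  push Not at hcon
  obtain ⟨g, hg⟩ := exists_not_mem_center (K := K)
  apply hg
  let f1 : (Fin r → GL (Fin 2) K) →* (GL (Fin 2) K ⧸ Subgroup.center (GL (Fin 2) K)) :=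
    (QuotientGroup.mk' _).comp ((Pi.evalMonoidHom _ k).comp σ.toMonoidHom)
  have h1 : f1 = 1 := by
    apply MonoidHom.pi_ext
    intro i x
    have h2 : σ (Pi.mulSingle i x) k ∈ Subgroup.center (GL (Fin 2) K) := by
      by_contra h
      exact hcon i ⟨x, h⟩
    exact (QuotientGroup.eq_one_iff _).mpr h2
  have h3 := DFunLike.congr_fun h1 (σ.symm (Pi.mulSingle k g))
  have h4 : f1 (σ.symm (Pi.mulSingle k g)) = QuotientGroup.mk g := by
    simp [f1]
  rw [h4, MonoidHom.one_apply, QuotientGroup.eq_one_iff] at h3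
  exact h3

theorem mem_center_iff_forall {h : Fin r → GL (Fin 2) K} :
    h ∈ Subgroup.center (Fin r → GL (Fin 2) K) ↔ ∀ k, h k ∈ Subgroup.center (GL (Fin 2) K) := by
  constructor
  · intro hh k
    rw [Subgroup.mem_center_iff] at hh ⊢
    intro g
    have := congrFun (hh (Pi.mulSingle k g)) k
    simpa using this
  · intro hh
    rw [Subgroup.mem_center_iff]
    intro g
    funext k
    exact Subgroup.mem_center_iff.mp (hh k) (g k)

theorem mem_center_of_map {h : Fin r → GL (Fin 2) K}
    (hh : σ h ∈ Subgroup.center (Fin r → GL (Fin 2) K)) :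
    h ∈ Subgroup.center (Fin r → GL (Fin 2) K) := by
  rw [Subgroup.mem_center_iff] at hh ⊢
  intro g
  apply σ.injective
  rw [map_mul, map_mul]
  exact hh _

theorem rel_surj (i : Fin r) : ∃ k, Rel σ k i := by
  by_contra hcon
  push Not at hcon
  obtain ⟨g, hg⟩ := exists_not_mem_center (K := K)
  apply hg
  have h1 : σ (Pi.mulSingle i g) ∈ Subgroup.center (Fin r → GL (Fin 2) K) := by
    rw [mem_center_iff_forall]
    intro k
    by_contra h
    exact hcon k ⟨g, h⟩
  have h2 := mem_center_iff_forall.mp (mem_center_of_map σ h1) i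
  simpa using h2

/-- The permutation of the factors. -/
noncomputable def perm (k : Fin r) : Fin r := (exists_rel σ k).choose

theorem rel_perm (k : Fin r) : Rel σ k (perm σ k) := (exists_rel σ k).choose_spec

theorem perm_eq {k i : Fin r} (h : Rel σ k i) : perm σ k = i := rel_unique σ (rel_perm σ k) h

theorem perm_bijective : Function.Bijective (perm σ) := by
  rw [← Finite.surjective_iff_bijective]
  intro i
  obtain ⟨k, hk⟩ := rel_surj σ i
  exact ⟨k, perm_eq σ hk⟩

/-- The components of `σ`, modulo the center. -/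
noncomputable def comp (k : Fin r) :
    GL (Fin 2) K →* (GL (Fin 2) K ⧸ Subgroup.center (GL (Fin 2) K)) where
  toFun g := QuotientGroup.mk (σ (Pi.mulSingle (perm σ k) g) k)
  map_one' := by simp
  map_mul' g h := by
    rw [Pi.mulSingle_mul, map_mul, Pi.mul_apply, QuotientGroup.mk_mul]

theorem mk_apply (h : Fin r → GL (Fin 2) K) (k : Fin r) :
    (QuotientGroup.mk (σ h k) : GL (Fin 2) K ⧸ Subgroup.center (GL (Fin 2) K)) =
      comp σ k (h (perm σ k)) := by
  let f1 : (Fin r → GL (Fin 2) K) →* (GL (Fin 2) K ⧸ Subgroup.center (GL (Fin 2) K)) :=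
    (QuotientGroup.mk' _).comp ((Pi.evalMonoidHom _ k).comp σ.toMonoidHom)
  let f2 : (Fin r → GL (Fin 2) K) →* (GL (Fin 2) K ⧸ Subgroup.center (GL (Fin 2) K)) :=
    (comp σ k).comp (Pi.evalMonoidHom _ (perm σ k))
  have h1 : f1 = f2 := by
    apply MonoidHom.pi_ext
    intro i x
    by_cases hi : i = perm σ k
    · subst hi
      simp [f1, f2, comp]
    · have h2 : σ (Pi.mulSingle i x) k ∈ Subgroup.center (GL (Fin 2) K) := by
        by_contra h
        exact hi (perm_eq σ ⟨x, h⟩).symm
      have h3 : f1 (Pi.mulSingle i x) = 1 := (QuotientGroup.eq_one_iff _).mpr h2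
      rw [h3]
      simp [f2, Pi.mulSingle_eq_of_ne (Ne.symm hi)]
  exact DFunLike.congr_fun h1 h

theorem comp_eq_one {k : Fin r} {g : GL (Fin 2) K} (h : comp σ k g = 1) :
    g ∈ Subgroup.center (GL (Fin 2) K) := by
  have h1 : σ (Pi.mulSingle (perm σ k) g) ∈ Subgroup.center (Fin r → GL (Fin 2) K) := by
    rw [mem_center_iff_forall]
    intro l
    rw [← QuotientGroup.eq_one_iff, mk_apply]
    by_cases hl : l = k
    · subst hl
      simpa using h
    · have h2 : perm σ l ≠ perm σ k := fun e => hl ((perm_bijective σ).injective e)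
      rw [Pi.mulSingle_eq_of_ne h2, map_one]
  have h2 := mem_center_iff_forall.mp (mem_center_of_map σ h1) (perm σ k)
  simpa using h2

end Perm

end Q5.Tori
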