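import Mathlib

set_option autoImplicit false

/-!
# Tori in a matrix product subvariety of `GL_n^r`
-/

namespace Q5.Tori

/-- The group `GL_n(K)^r`. -/
def G (K : Type*) [Field K] (n r : ℕ) : Type _ := Fin r → GL (Fin n) K

instance (K : Type*) [Field K] (n r : ℕ) : Group (G K n r) :=
  inferInstanceAs (Group (Fin r → GL (Fin n) K))

variable {K : Type*} [Field K] {n r : ℕ}

/-- The coordinates on `GL_n(K)^r`: the entries of the matrices and of their inverses. -/
def coords (h : G K n r) : (Fin r × Fin n × Fin n) ⊕ (Fin r × Fin n × Fin n) → K :=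
  Sum.elim (fun k => (h k.1).val k.2.1 k.2.2) (fun k => (h k.1).inv k.2.1 k.2.2)

/-- Polynomials in the entries of the matrices and of their inverses. -/
abbrev Poly (K : Type*) [Field K] (n r : ℕ) : Type _ :=
  MvPolynomial ((Fin r × Fin n × Fin n) ⊕ (Fin r × Fin n × Fin n)) K

/-- Zariski closed subsets of `GL_n(K)^r`. -/
def IsZariskiClosed (Z : Set (G K n r)) : Prop :=
  ∃ S : Set (Poly K n r), Z = {h | ∀ f ∈ S, MvPolynomial.eval (coords h) f = 0}

/-- Morphisms of varieties from `GL_n(K)^r` to itself: all entries are regular functions. -/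
def IsMorphism (σ : G K n r → G K n r) : Prop :=
  ∀ i a b, ∃ P : Poly K n r, ∀ h, (σ h i).val a b = MvPolynomial.eval (coords h) P

/-- Automorphisms of `GL_n(K)^r` as an algebraic group. -/
def IsAlgAut (σ : G K n r ≃* G K n r) : Prop := IsMorphism σ ∧ IsMorphism σ.symm

/-- The subvariety `X = {h | M_1 h_1 M_2 h_2 ⋯ M_r h_r M_{r+1} = 1}`. -/
def X (M : Fin (r + 1) → GL (Fin n) K) : Set (G K n r) :=
  {h | (List.ofFn fun i : Fin r => M i.castSucc * h i).prod * M (Fin.last r) = 1}

/-- The group `H` of the automorphisms `σ` of the algebraic group `GL_n(K)^r` with `σ(X) = X`. -/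
def H (M : Fin (r + 1) → GL (Fin n) K) : Set (G K n r ≃* G K n r) :=
  {σ | IsAlgAut σ ∧ σ '' X M = X M}

/-- The coordinates on the torus `(K^×)^d` and their inverses. -/
def torusCoords {d : ℕ} (t : Fin d → Kˣ) : Fin d ⊕ Fin d → K :=
  Sum.elim (fun j => (t j : K)) (fun j => (t j : K)⁻¹)

/-- `φ` is an isomorphism of algebraic groups from `(K^×)^d` to `T`. -/
def IsTorusIso {d : ℕ} (T : Subgroup (G K n r)) (φ : (Fin d → Kˣ) ≃* T) : Prop :=
  (∀ i a b, ∃ P : MvPolynomial (Fin d ⊕ Fin d) K,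
    ∀ t, ((φ t).1 i).val a b = MvPolynomial.eval (torusCoords t) P) ∧
  (∀ j, ∃ P : Poly K n r, ∀ x : T, ((φ.symm x) j : K) = MvPolynomial.eval (coords x.1) P)

/-- `T` is a torus contained in `X`: a Zariski closed subgroup contained in `X` that is isomorphic
to `(K^×)^d` as an algebraic group for some `d`. -/
def IsTorusIn (M : Fin (r + 1) → GL (Fin n) K) (T : Subgroup (G K n r)) : Prop :=
  IsZariskiClosed (T : Set (G K n r)) ∧ (T : Set (G K n r)) ⊆ X M ∧
    ∃ (d : ℕ) (φ : (Fin d → Kˣ) ≃* T), IsTorusIso T φ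

/-- `T` is a maximal torus contained in `X`. -/
def IsMaxTorusIn (M : Fin (r + 1) → GL (Fin n) K) (T : Subgroup (G K n r)) : Prop :=
  IsTorusIn M T ∧ ∀ S, IsTorusIn M S → T ≤ S → S = T

/-- The maximal tori contained in `X` fall into only finitely many `H`-orbits. -/
def FinitelyManyOrbits (M : Fin (r + 1) → GL (Fin n) K) : Prop :=
  ∃ F : Set (Subgroup (G K n r)), F.Finite ∧
    ∀ T, IsMaxTorusIn M T → ∃ S ∈ F, ∃ σ ∈ H M, S.map σ.toMonoidHom = T

/-- A matrix is semisimple if it is diagonalizable. -/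
def IsSemisimple (M : GL (Fin n) K) : Prop :=
  ∃ P : GL (Fin n) K, (P * M * P⁻¹).val.IsDiag

end Q5.Tori
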