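import Pool.Agent.Q5.Tori.Four

set_option autoImplicit false

/-!
# A family of tori
-/

open Matrix

namespace Q5.Tori

variable {K : Type*} [Field K]

/-- The invertible upper triangular matrices of order two. -/
def tri (a b : Kˣ) (x : K) : GL (Fin 2) K where
  val := !![(a : K), x; 0, b]
  inv := !![(a : K)⁻¹, -((a : K)⁻¹ * x * (b : K)⁻¹); 0, (b : K)⁻¹]
  val_inv := by
    ext i j
    fin_cases i <;> fin_cases j <;> simp [mul_apply, Fin.sum_univ_two]
    field_simp
    ring
  inv_val := by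
    ext i j
    fin_cases i <;> fin_cases j <;> simp [mul_apply, Fin.sum_univ_two]

theorem tri_val (a b : Kˣ) (x : K) : (tri a b x).val = !![(a : K), x; 0, b] := rfl

theorem tri_mul (a b a' b' : Kˣ) (x x' : K) :
    tri a b x * tri a' b' x' = tri (a * a') (b * b') (a * x' + x * b') := by
  apply Units.ext
  rw [Units.val_mul, tri_val, tri_val, tri_val]
  ext i j
  fin_cases i <;> fin_cases j <;> simp [mul_apply, Fin.sum_univ_two]

theorem tri_one : tri (1 : Kˣ) 1 0 = 1 := by
  apply Units.ext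
  rw [tri_val]
  ext i j
  fin_cases i <;> fin_cases j <;> simp

theorem tri_inj {a b a' b' : Kˣ} {x x' : K} (h : tri a b x = tri a' b' x') :
    a = a' ∧ b = b' ∧ x = x' := by
  have h1 := congrArg Units.val h
  rw [tri_val, tri_val] at h1
  have h00 := congrFun (congrFun h1 0) 0
  have h01 := congrFun (congrFun h1 0) 1
  have h11 := congrFun (congrFun h1 1) 1
  simp at h00 h01 h11
  exact ⟨Units.ext h00, Units.ext h11, h01⟩

theorem tri_inv (a b : Kˣ) (x : K) :
    (tri a b x)⁻¹ = tri a⁻¹ b⁻¹ (-((a : K)⁻¹ * x * (b : K)⁻¹)) := by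
  rw [inv_eq_iff_mul_eq_one, tri_mul, ← tri_one]
  congr 1
  · simp
  · simp
  · simp
    field_simp
    ring

theorem tri_eq {g : GL (Fin 2) K} (h : g.val 1 0 = 0) : ∃ (a b : Kˣ) (x : K), g = tri a b x := by
  have hdet : g.val.det ≠ 0 := by
    have := (Matrix.isUnit_iff_isUnit_det _).mp g.isUnit
    exact this.ne_zero
  rw [det_fin_two, h, mul_zero, sub_zero] at hdet
  refine ⟨Units.mk0 _ (left_ne_zero_of_mul hdet), Units.mk0 _ (right_ne_zero_of_mul hdet),
    g.val 0 1, ?_⟩
  apply Units.ext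
  rw [tri_val]
  ext i j
  fin_cases i <;> fin_cases j <;> simp [h]

/-- The elements commuting with a homothety centred at `s`. -/
theorem form_of_commute {u : Kˣ} {s : K} (hu : u ≠ 1) {g : GL (Fin 2) K}
    (hc : g * tri u 1 (s * (1 - u)) = tri u 1 (s * (1 - u)) * g) :
    ∃ a b : Kˣ, g = tri a b (s * (b - a)) := by
  have hu' : (1 - (u : K)) ≠ 0 := by
    rw [sub_ne_zero]
    intro h
    exact hu (Units.ext h.symm)
  have h1 := congrArg Units.val hc
  rw [Units.val_mul, Units.val_mul, tri_val] at h1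
  have h10 : g.val 1 0 = 0 := by
    have h2 := congrFun (congrFun h1 1) 0
    simp only [mul_apply, Fin.sum_univ_two, of_apply, cons_val', cons_val_zero, cons_val_one,
      cons_val_fin_one, mul_zero, add_zero, zero_mul, zero_add, one_mul, Units.val_one] at h2
    have h3 : g.val 1 0 * (1 - (u : K)) = 0 := by linear_combination -h2
    exact (mul_eq_zero.mp h3).resolve_right hu'
  obtain ⟨a, b, x, rfl⟩ := tri_eq h10
  refine ⟨a, b, ?_⟩
  have h2 := congrFun (congrFun h1 0) 1
  simp [mul_apply, Fin.sum_univ_two, tri_val] at h2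
  have h3 : (1 - (u : K)) * x = (1 - (u : K)) * (s * (b - a)) := by linear_combination h2
  rw [mul_left_cancel₀ hu' h3]

/-! ### The family -/

/-- The centres. -/
def cen (K : Type*) [Field K] (m : ℕ) : Fin 4 → K := ![0, 1, m, m - 1]

/-- The lower right entries. -/
def bb (t : Fin 4 → Kˣ) : Fin 4 → Kˣ := ![t 1, t 2, t 3, (t 1 * t 2 * t 3)⁻¹]

/-- The ratios of the homotheties. -/
def ee (t : Fin 4 → Kˣ) : Fin 4 → Kˣ := ![t 0, (t 0)⁻¹, t 0, (t 0)⁻¹]

theorem bb_mul (t t' : Fin 4 → Kˣ) (i : Fin 4) : bb (t * t') i = bb t i * bb t' i := by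
  fin_cases i
  · rfl
  · rfl
  · rfl
  · show (t 1 * t' 1 * (t 2 * t' 2) * (t 3 * t' 3))⁻¹ = (t 1 * t 2 * t 3)⁻¹ * (t' 1 * t' 2 * t' 3)⁻¹
    rw [← mul_inv]
    congr 1
    ac_rfl

theorem ee_mul (t t' : Fin 4 → Kˣ) (i : Fin 4) : ee (t * t') i = ee t i * ee t' i := by
  fin_cases i
  · rfl
  · show (t 0 * t' 0)⁻¹ = (t 0)⁻¹ * (t' 0)⁻¹
    rw [mul_inv]
  · rfl
  · show (t 0 * t' 0)⁻¹ = (t 0)⁻¹ * (t' 0)⁻¹
    rw [mul_inv]

/-- The parametrization of the torus `T_m`. -/
def Phi (K : Type*) [Field K] (m : ℕ) : (Fin 4 → Kˣ) →* G K 2 4 where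
  toFun t := fun i => tri (bb t i * ee t i) (bb t i)
    (cen K m i * ((bb t i : K) - ((bb t i * ee t i : Kˣ) : K)))
  map_one' := by
    funext i
    have h1 : bb (1 : Fin 4 → Kˣ) i = 1 := by fin_cases i <;> simp [bb]
    have h2 : ee (1 : Fin 4 → Kˣ) i = 1 := by fin_cases i <;> simp [ee]
    show tri _ _ _ = 1
    rw [h1, h2, ← tri_one]
    congr 1 <;> simp
  map_mul' t t' := by
    funext i
    show tri _ _ _ = tri _ _ _ * tri _ _ _
    rw [tri_mul, bb_mul, ee_mul]
    congr 1
    · exact mul_mul_mul_comm _ _ _ _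
    · push_cast
      ring

theorem Phi_apply (m : ℕ) (t : Fin 4 → Kˣ) (i : Fin 4) : Phi K m t i =
    tri (bb t i * ee t i) (bb t i) (cen K m i * ((bb t i : K) - ((bb t i * ee t i : Kˣ) : K))) := rfl

/-- The torus `T_m`. -/
def T (K : Type*) [Field K] (m : ℕ) : Subgroup (G K 2 4) := (Phi K m).range

theorem mem_T_of (m : ℕ) (h : G K 2 4) (a b : Fin 4 → Kˣ)
    (hh : ∀ i, h i = tri (a i) (b i) (cen K m i * (b i - a i)))
    (h1 : a 0 * a 1 = b 0 * b 1) (h2 : a 0 * a 3 = b 0 * b 3) (h3 : a 2 * b 0 = b 2 * a 0)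
    (h4 : b 0 * b 1 * b 2 * b 3 = 1) : h ∈ T K m := by
  refine ⟨![a 0 * (b 0)⁻¹, b 0, b 1, b 2], ?_⟩
  funext i
  rw [Phi_apply, hh]
  have e3 : (b 0 * b 1 * b 2)⁻¹ = b 3 := inv_eq_of_mul_eq_one_right h4
  have f0 : b 0 * (a 0 * (b 0)⁻¹) = a 0 := by
    rw [mul_comm (a 0), mul_inv_cancel_left]
  have f1 : b 1 * (a 0 * (b 0)⁻¹)⁻¹ = a 1 := by
    rw [_root_.mul_inv_rev, inv_inv, ← mul_assoc, mul_comm (b 1), ← h1, mul_comm (a 0), mul_inv_cancel_right]
  have f2 : b 2 * (a 0 * (b 0)⁻¹) = a 2 := by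
    rw [← mul_assoc, ← h3, mul_inv_cancel_right]
  have f3 : b 3 * (a 0 * (b 0)⁻¹)⁻¹ = a 3 := by
    rw [_root_.mul_inv_rev, inv_inv, ← mul_assoc, mul_comm (b 3), ← h2, mul_comm (a 0), mul_inv_cancel_right]
  have g : ∀ i, bb ![a 0 * (b 0)⁻¹, b 0, b 1, b 2] i = b i ∧
      bb ![a 0 * (b 0)⁻¹, b 0, b 1, b 2] i * ee ![a 0 * (b 0)⁻¹, b 0, b 1, b 2] i = a i := by
    intro i
    fin_cases i
    · exact ⟨rfl, f0⟩
    · exact ⟨rfl, f1⟩
    · exact ⟨rfl, f2⟩
    · refine ⟨e3, ?_⟩
      show (b 0 * b 1 * b 2)⁻¹ * (a 0 * (b 0)⁻¹)⁻¹ = a 3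
      rw [e3]
      exact f3
  rw [(g i).2, (g i).1]

theorem T_closed (m : ℕ) : IsZariskiClosed (T K m : Set (G K 2 4)) := by
  refine ⟨{f | ∀ h ∈ T K m, MvPolynomial.eval (coords h) f = 0}, ?_⟩
  apply Set.Subset.antisymm
  · intro h hh f hf
    exact hf h hh
  · intro h hh
    have hh' : ∀ f : Poly K 2 4, (∀ h ∈ T K m, MvPolynomial.eval (coords h) f = 0) →
      MvPolynomial.eval (coords h) f = 0 := hh
    -- the entries
    let Y : Fin 4 → Fin 2 → Fin 2 → Poly K 2 4 := fun i a b => MvPolynomial.X (Sum.inl (i, a, b))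
    have hY : ∀ (h : G K 2 4) i a b, MvPolynomial.eval (coords h) (Y i a b) = (h i).val a b := by
      intro h i a b
      simp [Y, coords]
    have h10 : ∀ i, (h i).val 1 0 = 0 := by
      intro i
      rw [← hY]
      apply hh'
      rintro _ ⟨t, rfl⟩
      rw [hY, Phi_apply, tri_val]
      simp
    choose a b x hx using fun i => tri_eq (h10 i)
    have hx' : ∀ i, x i = cen K m i * (b i - a i) := by
      intro i
      have := hh' (Y i 0 1 - MvPolynomial.C (cen K m i) * (Y i 1 1 - Y i 0 0)) (by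
        rintro _ ⟨t, rfl⟩
        simp only [map_sub, map_mul, MvPolynomial.eval_C, hY]
        rw [Phi_apply, tri_val]
        simp)
      simp only [map_sub, map_mul, MvPolynomial.eval_C, hY] at this
      rw [hx i, tri_val] at this
      simp at this
      linear_combination this
    refine mem_T_of m h a b (fun i => by rw [← hx' i, ← hx i]) ?_ ?_ ?_ ?_
    · apply Units.ext
      have := hh' (Y 0 0 0 * Y 1 0 0 - Y 0 1 1 * Y 1 1 1) (by
        rintro _ ⟨t, rfl⟩
        simp only [map_sub, map_mul, hY]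
        rw [Phi_apply, Phi_apply, tri_val, tri_val]
        simp [bb, ee]
        field_simp
        ring)
      simp only [map_sub, map_mul, hY] at this
      rw [hx 0, hx 1, tri_val, tri_val] at this
      simp at this
      push_cast
      linear_combination this
    · apply Units.ext
      have := hh' (Y 0 0 0 * Y 3 0 0 - Y 0 1 1 * Y 3 1 1) (by
        rintro _ ⟨t, rfl⟩
        simp only [map_sub, map_mul, hY]
        rw [Phi_apply, Phi_apply, tri_val, tri_val]
        simp [bb, ee]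
        field_simp
        ring)
      simp only [map_sub, map_mul, hY] at this
      rw [hx 0, hx 3, tri_val, tri_val] at this
      simp at this
      push_cast
      linear_combination this
    · apply Units.ext
      have := hh' (Y 2 0 0 * Y 0 1 1 - Y 2 1 1 * Y 0 0 0) (by
        rintro _ ⟨t, rfl⟩
        simp only [map_sub, map_mul, hY]
        rw [Phi_apply, Phi_apply, tri_val, tri_val]
        simp [bb, ee]
        ring)
      simp only [map_sub, map_mul, hY] at this
      rw [hx 0, hx 2, tri_val, tri_val] at this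
      simp at this
      push_cast
      linear_combination this
    · apply Units.ext
      have := hh' (Y 0 1 1 * Y 1 1 1 * Y 2 1 1 * Y 3 1 1 - 1) (by
        rintro _ ⟨t, rfl⟩
        simp only [map_sub, map_mul, hY, map_one]
        rw [Phi_apply, Phi_apply, Phi_apply, Phi_apply, tri_val, tri_val, tri_val, tri_val]
        simp [bb]
        field_simp
        ring)
      simp only [map_sub, map_mul, hY, map_one] at this
      rw [hx 0, hx 1, hx 2, hx 3, tri_val, tri_val, tri_val, tri_val] at this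
      simp at this
      push_cast
      linear_combination this

end Q5.Tori
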