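import Pool.Agent.Q5.Tori.Auts
import Pool.Agent.Q5.Tori.Defs

set_option autoImplicit false

/-!
# Automorphisms of `GL_2^4` preserving the variety `h_1 h_2 h_3 h_4 = 1`
-/

open Matrix

namespace Q5.Tori

variable {K : Type*} [Field K]

theorem mem_X_iff (h : G K 2 4) :
    h ∈ X (1 : Fin (4 + 1) → GL (Fin 2) K) ↔ h 0 * (h 1 * (h 2 * h 3)) = 1 := by
  have e : h ∈ X (1 : Fin (4 + 1) → GL (Fin 2) K) ↔
      (List.ofFn fun i : Fin 4 => (1 : Fin (4 + 1) → GL (Fin 2) K) i.castSucc * h i).prod *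
        (1 : Fin (4 + 1) → GL (Fin 2) K) (Fin.last 4) = 1 := Iff.rfl
  rw [e]
  simp only [Pi.one_apply, one_mul, mul_one, List.ofFn_succ, List.ofFn_zero, List.prod_cons,
    List.prod_nil]
  rfl

/-- All components of `σ` agree modulo the center. -/
theorem comp_eq [CharZero K] (σ : (Fin 4 → GL (Fin 2) K) ≃* (Fin 4 → GL (Fin 2) K))
    (hσ : ∀ h : Fin 4 → GL (Fin 2) K, h 0 * (h 1 * (h 2 * h 3)) = 1 →
      σ h 0 * (σ h 1 * (σ h 2 * σ h 3)) = 1) (k l : Fin 4) : comp σ k = comp σ l := by
  by_cases hkl : k = l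
  · rw [hkl]
  ext g
  have hne : perm σ k ≠ perm σ l := fun e => hkl ((perm_bijective σ).injective e)
  -- an element of `X` with two nontrivial components
  set e : Fin 4 → GL (Fin 2) K := Pi.mulSingle (perm σ k) g * Pi.mulSingle (perm σ l) g⁻¹ with he
  have h1 : e 0 * (e 1 * (e 2 * e 3)) = 1 := by
    rw [he]
    generalize perm σ k = a at hne
    generalize perm σ l = b at hne
    fin_cases a <;> fin_cases b <;> simp at hne ⊢
  have h2 := hσ e h1
  have h3 : ∀ j, (QuotientGroup.mk (σ e j) : GL (Fin 2) K ⧸ Subgroup.center (GL (Fin 2) K)) =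
      if j = k then comp σ k g else if j = l then (comp σ l g)⁻¹ else 1 := by
    intro j
    rw [mk_apply]
    have hinj : ∀ a b : Fin 4, perm σ a = perm σ b ↔ a = b := fun a b =>
      (perm_bijective σ).injective.eq_iff
    by_cases hjk : j = k
    · subst hjk
      rw [if_pos rfl, he, Pi.mul_apply, Pi.mulSingle_eq_same, Pi.mulSingle_eq_of_ne hne, mul_one]
    · rw [if_neg hjk]
      by_cases hjl : j = l
      · subst hjl
        rw [if_pos rfl, he, Pi.mul_apply, Pi.mulSingle_eq_same,
          Pi.mulSingle_eq_of_ne (fun h => hjk ((hinj _ _).mp h)), one_mul, map_inv]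
      · rw [if_neg hjl, he, Pi.mul_apply, Pi.mulSingle_eq_of_ne (fun h => hjk ((hinj _ _).mp h)),
          Pi.mulSingle_eq_of_ne (fun h => hjl ((hinj _ _).mp h)), mul_one, map_one]
  have h4 := congrArg (QuotientGroup.mk' (Subgroup.center (GL (Fin 2) K))) h2
  simp only [map_mul, QuotientGroup.mk'_apply, h3, map_one] at h4
  have h5 : comp σ k g = comp σ l g := by
    generalize comp σ k g = u at h4
    generalize comp σ l g = v at h4
    fin_cases k <;> fin_cases l <;> simp at hkl h4 <;> first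
      | exact mul_inv_eq_one.mp h4
      | exact (inv_mul_eq_one.mp h4).symm
  rw [h5]

end Q5.Tori
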