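import Pool.Agent.Q5.Tori.Family

set_option autoImplicit false

/-!
# The tori of the family are maximal
-/

open Matrix

namespace Q5.Tori

variable {K : Type*} [Field K]

/-- The product of four upper triangular matrices whose centres are given. -/
theorem tri_prod (a b s : Fin 4 → K) (x : Fin 4 → K) (hx : ∀ i, x i = s i * (b i - a i)) :
    a 0 * (a 1 * (a 2 * x 3 + x 2 * b 3) + x 1 * (b 2 * b 3)) + x 0 * (b 1 * (b 2 * b 3)) =
      s 0 * (b 0 * b 1 * b 2 * b 3) + (s 1 - s 0) * (a 0 * b 1 * b 2 * b 3) +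
      (s 2 - s 1) * (a 0 * a 1 * b 2 * b 3) + (s 3 - s 2) * (a 0 * a 1 * a 2 * b 3) -
      s 3 * (a 0 * a 1 * a 2 * a 3) := by
  rw [hx, hx, hx, hx]
  ring

theorem Phi_injective (m : ℕ) : Function.Injective (Phi K m) := by
  intro t t' h
  have h0 : ∀ i, bb t i = bb t' i := fun i => by
    have := congrFun h i
    rw [Phi_apply, Phi_apply] at this
    exact (tri_inj this).2.1
  have h1 : ∀ i, ee t i = ee t' i := fun i => by
    have := congrFun h i
    rw [Phi_apply, Phi_apply] at this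
    have h2 := (tri_inj this).1
    rw [h0] at h2
    exact mul_left_cancel h2
  funext j
  fin_cases j
  · exact h1 0
  · exact h0 0
  · exact h0 1
  · exact h0 2

/-- The parametrization as an isomorphism. -/
noncomputable def PhiEquiv (K : Type*) [Field K] (m : ℕ) : (Fin 4 → Kˣ) ≃* T K m :=
  MonoidHom.ofInjective (Phi_injective m)

theorem PhiEquiv_apply (m : ℕ) (t : Fin 4 → Kˣ) : (PhiEquiv K m t).1 = Phi K m t := rfl

theorem exists_bb (i : Fin 4) : ∃ P : MvPolynomial (Fin 4 ⊕ Fin 4) K,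
    ∀ t : Fin 4 → Kˣ, (bb t i : K) = MvPolynomial.eval (torusCoords t) P := by
  fin_cases i
  · exact ⟨MvPolynomial.X (Sum.inl 1), fun t => by simp [torusCoords, bb]⟩
  · exact ⟨MvPolynomial.X (Sum.inl 2), fun t => by simp [torusCoords, bb]⟩
  · exact ⟨MvPolynomial.X (Sum.inl 3), fun t => by simp [torusCoords, bb]⟩
  · exact ⟨MvPolynomial.X (Sum.inr 1) * MvPolynomial.X (Sum.inr 2) * MvPolynomial.X (Sum.inr 3),
      fun t => by simp [torusCoords, bb]; ring⟩

theorem exists_ee (i : Fin 4) : ∃ P : MvPolynomial (Fin 4 ⊕ Fin 4) K,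
    ∀ t : Fin 4 → Kˣ, (ee t i : K) = MvPolynomial.eval (torusCoords t) P := by
  fin_cases i
  · exact ⟨MvPolynomial.X (Sum.inl 0), fun t => by simp [torusCoords, ee]⟩
  · exact ⟨MvPolynomial.X (Sum.inr 0), fun t => by simp [torusCoords, ee]⟩
  · exact ⟨MvPolynomial.X (Sum.inl 0), fun t => by simp [torusCoords, ee]⟩
  · exact ⟨MvPolynomial.X (Sum.inr 0), fun t => by simp [torusCoords, ee]⟩

theorem T_torus (m : ℕ) : IsTorusIn (1 : Fin (4 + 1) → GL (Fin 2) K) (T K m) := by
  refine ⟨T_closed m, ?_, 4, PhiEquiv K m, ?_, ?_⟩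
  · rintro _ ⟨t, rfl⟩
    rw [mem_X_iff, Phi_apply, Phi_apply, Phi_apply, Phi_apply, tri_mul, tri_mul, tri_mul, ← tri_one]
    congr 1
    · simp only [bb, ee, cons_val_zero, cons_val_one, cons_val]
      apply Units.ext
      push_cast
      field_simp
    · simp only [bb, cons_val_zero, cons_val_one, cons_val]
      apply Units.ext
      push_cast
      field_simp
    · simp only [bb, ee, cen, cons_val_zero, cons_val_one, cons_val]
      push_cast
      field_simp
      ring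
  · intro i a b
    obtain ⟨P, hP⟩ := exists_bb (K := K) i
    obtain ⟨Q, hQ⟩ := exists_ee (K := K) i
    have h : ∀ t : Fin 4 → Kˣ, ((PhiEquiv K m t).1 i).val =
        !![(bb t i : K) * ee t i, cen K m i * ((bb t i : K) - (bb t i : K) * ee t i); 0, bb t i] := by
      intro t
      rw [PhiEquiv_apply, Phi_apply, tri_val]
      push_cast
      rfl
    fin_cases a <;> fin_cases b
    · exact ⟨P * Q, fun t => by rw [h]; simp [hP, hQ]⟩
    · exact ⟨MvPolynomial.C (cen K m i) * (P - P * Q), fun t => by rw [h]; simp [hP, hQ]⟩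
    · exact ⟨0, fun t => by rw [h]; simp⟩
    · exact ⟨P, fun t => by rw [h]; simp [hP]⟩
  · have key : ∀ x : T K m, ∃ t : Fin 4 → Kˣ, (PhiEquiv K m).symm x = t ∧ x.1 = Phi K m t := by
      intro x
      refine ⟨(PhiEquiv K m).symm x, rfl, ?_⟩
      rw [← PhiEquiv_apply, MulEquiv.apply_symm_apply]
    intro j
    fin_cases j
    · refine ⟨MvPolynomial.X (Sum.inl (0, 0, 0)) * MvPolynomial.X (Sum.inr (0, 1, 1)), fun x => ?_⟩
      obtain ⟨t, ht, hx⟩ := key x
      rw [ht, hx]
      simp only [map_mul, MvPolynomial.eval_X, coords, Sum.elim_inl, Sum.elim_inr, Phi_apply]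
      simp [tri, bb, ee]
      field_simp
    · refine ⟨MvPolynomial.X (Sum.inl (0, 1, 1)), fun x => ?_⟩
      obtain ⟨t, ht, hx⟩ := key x
      rw [ht, hx]
      simp only [MvPolynomial.eval_X, coords, Sum.elim_inl, Phi_apply]
      simp [tri, bb]
    · refine ⟨MvPolynomial.X (Sum.inl (1, 1, 1)), fun x => ?_⟩
      obtain ⟨t, ht, hx⟩ := key x
      rw [ht, hx]
      simp only [MvPolynomial.eval_X, coords, Sum.elim_inl, Phi_apply]
      simp [tri, bb]
    · refine ⟨MvPolynomial.X (Sum.inl (2, 1, 1)), fun x => ?_⟩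
      obtain ⟨t, ht, hx⟩ := key x
      rw [ht, hx]
      simp only [MvPolynomial.eval_X, coords, Sum.elim_inl, Phi_apply]
      simp [tri, bb]

/-- A commutative subgroup of `X` that contains `T_m` is equal to `T_m`. -/
theorem le_T [CharZero K] {m : ℕ} (hm : m ≠ 1) (S : Subgroup (G K 2 4))
    (hcomm : ∀ x ∈ S, ∀ y ∈ S, x * y = y * x)
    (hSX : (S : Set (G K 2 4)) ⊆ X (1 : Fin (4 + 1) → GL (Fin 2) K)) (hTS : T K m ≤ S) :
    S ≤ T K m := by
  classical
  -- a base point
  let u : Kˣ := Units.mk0 2 two_ne_zero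
  have hu : u ≠ 1 := by
    intro h
    have := congrArg Units.val h
    simp [u] at this
  let t0 : Fin 4 → Kˣ := ![u, 1, 1, 1]
  have hg0 : Phi K m t0 ∈ S := hTS ⟨_, rfl⟩
  have hbb : ∀ i, bb t0 i = 1 := by
    intro i
    fin_cases i <;> simp [bb, t0]
  have hee : ∀ i, ee t0 i ≠ 1 := by
    intro i
    fin_cases i <;> simp [ee, t0, hu]
  have hform : ∀ h ∈ S, ∀ i, ∃ a b : Kˣ, h i = tri a b (cen K m i * (b - a)) := by
    intro h hh i
    apply form_of_commute (hee i)
    have h1 := congrFun (hcomm h hh _ hg0) i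
    have h2 : Phi K m t0 i = tri (ee t0 i) 1 (cen K m i * (1 - (ee t0 i : K))) := by
      rw [Phi_apply, hbb, one_mul]
      simp
    have h3 : h i * Phi K m t0 i = Phi K m t0 i * h i := h1
    rw [h2] at h3
    exact h3
  choose! a b hab using hform
  have hval : ∀ h ∈ S, ∀ i, (h i).val = !![(a h i : K), cen K m i * (b h i - a h i); 0, b h i] := by
    intro h hh i
    rw [hab h hh i]
    rfl
  have hvmul : ∀ g h : G K 2 4, ∀ i, ((g * h) i).val = (g i).val * (h i).val := fun g h i => rfl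
  -- the characters
  let A : Fin 4 → (S →* K) := fun i =>
    { toFun := fun h => (h.1 i).val 0 0
      map_one' := by
        have : (1 : G K 2 4) i = 1 := rfl
        simp [this]
      map_mul' := by
        rintro ⟨g, hg⟩ ⟨h, hh⟩
        have e : ((g * h) i).val 0 0 = (g i).val 0 0 * (h i).val 0 0 := by
          rw [hvmul, hval g hg, hval h hh]
          simp [mul_apply, Fin.sum_univ_two]
        exact e }
  let B : Fin 4 → (S →* K) := fun i =>
    { toFun := fun h => (h.1 i).val 1 1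
      map_one' := by
        have : (1 : G K 2 4) i = 1 := rfl
        simp [this]
      map_mul' := by
        rintro ⟨g, hg⟩ ⟨h, hh⟩
        have e : ((g * h) i).val 1 1 = (g i).val 1 1 * (h i).val 1 1 := by
          rw [hvmul, hval g hg, hval h hh]
          simp [mul_apply, Fin.sum_univ_two]
        exact e }
  have hA : ∀ (h : S) i, A i h = a h.1 i := by
    rintro ⟨h, hh⟩ i
    show (h i).val 0 0 = _
    rw [hval h hh]
    simp
  have hB : ∀ (h : S) i, B i h = b h.1 i := by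
    rintro ⟨h, hh⟩ i
    show (h i).val 1 1 = _
    rw [hval h hh]
    simp
  let χ1 : S →* K := A 0 * B 1 * B 2 * B 3
  let χ2 : S →* K := A 0 * A 1 * B 2 * B 3
  let χ3 : S →* K := A 0 * A 1 * A 2 * B 3
  have hχ1 : ∀ h : S, χ1 h = a h.1 0 * b h.1 1 * b h.1 2 * b h.1 3 := fun h => by
    simp only [χ1, MonoidHom.mul_apply, hA, hB]
  have hχ2 : ∀ h : S, χ2 h = a h.1 0 * a h.1 1 * b h.1 2 * b h.1 3 := fun h => by
    simp only [χ2, MonoidHom.mul_apply, hA, hB]
  have hχ3 : ∀ h : S, χ3 h = a h.1 0 * a h.1 1 * a h.1 2 * b h.1 3 := fun h => by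
    simp only [χ3, MonoidHom.mul_apply, hA, hB]
  -- the relations
  have hrel : ∀ h : S, (a h.1 0 * a h.1 1 * a h.1 2 * a h.1 3 : Kˣ) = 1 ∧
      (b h.1 0 * b h.1 1 * b h.1 2 * b h.1 3 : Kˣ) = 1 ∧
      (cen K m 0 - cen K m 3) * 1 + (cen K m 1 - cen K m 0) * χ1 h +
        (cen K m 2 - cen K m 1) * χ2 h + (cen K m 3 - cen K m 2) * χ3 h = 0 := by
    rintro ⟨h, hh⟩
    have h1 := (mem_X_iff h).mp (hSX hh)
    rw [hab h hh 0, hab h hh 1, hab h hh 2, hab h hh 3, tri_mul, tri_mul, tri_mul, ← tri_one] at h1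
    obtain ⟨e1, e2, e3⟩ := tri_inj h1
    have f1 : (a h 0 * a h 1 * a h 2 * a h 3 : Kˣ) = 1 := by
      rw [← e1]
      simp only [mul_assoc]
    have f2 : (b h 0 * b h 1 * b h 2 * b h 3 : Kˣ) = 1 := by
      rw [← e2]
      simp only [mul_assoc]
    refine ⟨f1, f2, ?_⟩
    rw [hχ1, hχ2, hχ3]
    have f3 := congrArg Units.val f1
    have f4 := congrArg Units.val f2
    push_cast at f3 f4 e3
    have e4 := tri_prod (fun i => (a h i : K)) (fun i => (b h i : K)) (cen K m)
      (fun i => cen K m i * ((b h i : K) - a h i)) (fun i => rfl)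
    rw [e3, f3, f4] at e4
    linear_combination -e4
  -- the values at the base point
  have hx1 : χ1 ⟨_, hg0⟩ = 2 := by
    show (Phi K m t0 0).val 0 0 * (Phi K m t0 1).val 1 1 * (Phi K m t0 2).val 1 1 *
      (Phi K m t0 3).val 1 1 = 2
    simp only [Phi_apply, tri_val]
    simp [bb, ee, t0, u]
  have hx3 : χ3 ⟨_, hg0⟩ = 2 := by
    show (Phi K m t0 0).val 0 0 * (Phi K m t0 1).val 0 0 * (Phi K m t0 2).val 0 0 *
      (Phi K m t0 3).val 1 1 = 2
    simp only [Phi_apply, tri_val]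
    simp [bb, ee, t0, u]
  have hx2 : χ2 ⟨_, hg0⟩ = 1 := by
    show (Phi K m t0 0).val 0 0 * (Phi K m t0 1).val 0 0 * (Phi K m t0 2).val 1 1 *
      (Phi K m t0 3).val 1 1 = 1
    simp only [Phi_apply, tri_val]
    simp [bb, ee, t0, u]
  have n1 : χ1 ≠ 1 := by
    intro h
    rw [h] at hx1
    simp at hx1
  have n3 : χ3 ≠ 1 := by
    intro h
    rw [h] at hx3
    simp at hx3
  have n12 : χ2 ≠ χ1 := by
    intro h
    rw [h, hx1] at hx2
    norm_num at hx2
  -- linear independence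
  let l : (S →* K) →₀ K := Finsupp.single 1 (cen K m 0 - cen K m 3) +
    Finsupp.single χ1 (cen K m 1 - cen K m 0) + Finsupp.single χ2 (cen K m 2 - cen K m 1) +
    Finsupp.single χ3 (cen K m 3 - cen K m 2)
  have hl : l = 0 := by
    refine linearIndependent_iff.mp (linearIndependent_monoidHom S K) l ?_
    simp only [l, map_add, Finsupp.linearCombination_single]
    funext h
    simp only [Pi.add_apply, Pi.smul_apply, smul_eq_mul, Pi.zero_apply, MonoidHom.one_apply]
    exact (hrel h).2.2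
  have hc03 : cen K m 0 - cen K m 3 ≠ 0 := by
    have h1 : (m : K) ≠ 1 := by exact_mod_cast hm
    intro h2
    apply h1
    simp only [cen, cons_val_zero, cons_val] at h2
    linear_combination -h2
  have hc10 : cen K m 1 - cen K m 0 ≠ 0 := by simp [cen]
  have c2 : χ2 = 1 := by
    by_contra hne
    have h1 := DFunLike.congr_fun hl 1
    simp [l, n1, n3, hne] at h1
    exact hc03 h1
  have c3 : χ3 = χ1 := by
    by_contra hne
    have h1 := DFunLike.congr_fun hl χ1
    simp [l, n12, hne, n1.symm] at h1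
    exact hc10 h1
  -- conclusion
  intro h hh
  obtain ⟨r1, r2, _⟩ := hrel ⟨h, hh⟩
  have e2 : (a h 0 * a h 1 * b h 2 * b h 3 : Kˣ) = 1 := by
    apply Units.ext
    push_cast
    rw [← hχ2 ⟨h, hh⟩, c2]
    rfl
  have e3 : (a h 0 * a h 1 * a h 2 * b h 3 : Kˣ) = a h 0 * b h 1 * b h 2 * b h 3 := by
    apply Units.ext
    push_cast
    rw [← hχ3 ⟨h, hh⟩, ← hχ1 ⟨h, hh⟩, c3]
  have f1 : a h 0 * a h 1 = b h 0 * b h 1 := by
    rw [← r2, mul_assoc, mul_assoc (b h 0 * b h 1)] at e2
    exact mul_right_cancel e2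
  have f2 : a h 1 * a h 2 = b h 1 * b h 2 := by
    have e4 : (a h 0 * (a h 1 * a h 2)) * b h 3 = (a h 0 * (b h 1 * b h 2)) * b h 3 := by
      simpa only [mul_assoc] using e3
    exact mul_left_cancel (mul_right_cancel e4)
  refine mem_T_of m h (a h) (b h) (hab h hh) f1 ?_ ?_ r2
  · have e5 : (a h 1 * a h 2) * (a h 0 * a h 3) = (b h 1 * b h 2) * (b h 0 * b h 3) := by
      have e6 : (a h 1 * a h 2) * (a h 0 * a h 3) = a h 0 * a h 1 * a h 2 * a h 3 := by ac_rfl
      have e7 : (b h 1 * b h 2) * (b h 0 * b h 3) = b h 0 * b h 1 * b h 2 * b h 3 := by ac_rfl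
      rw [e6, e7, r1, r2]
    rw [f2] at e5
    exact mul_left_cancel e5
  · have e8 : (a h 2 * b h 0) * (a h 1 * b h 1) = (b h 2 * a h 0) * (a h 1 * b h 1) := by
      calc (a h 2 * b h 0) * (a h 1 * b h 1) = (a h 1 * a h 2) * (b h 0 * b h 1) := by ac_rfl
        _ = (b h 1 * b h 2) * (a h 0 * a h 1) := by rw [f2, f1]
        _ = (b h 2 * a h 0) * (a h 1 * b h 1) := by ac_rfl
    exact mul_right_cancel e8

theorem T_max [CharZero K] {m : ℕ} (hm : m ≠ 1) :
    IsMaxTorusIn (1 : Fin (4 + 1) → GL (Fin 2) K) (T K m) := by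
  refine ⟨T_torus m, fun S hS hTS => le_antisymm (le_T hm S ?_ hS.2.1 hTS) hTS⟩
  obtain ⟨_, _, d, φ, _⟩ := hS
  intro x hx y hy
  have h : (⟨x, hx⟩ : S) * ⟨y, hy⟩ = ⟨y, hy⟩ * ⟨x, hx⟩ := by
    apply φ.symm.injective
    rw [map_mul, map_mul, mul_comm]
  exact congrArg Subtype.val h

end Q5.Tori
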